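import Pool.Agent.H58.EQ.Types

/-!
# Equivelar manifolds in `E³` with regular faces: the possible types `{p, q}`

If an equivelar manifold of type `{p, q}` (of whatever genus) has only regular faces then
`p = 3`, or `p ∈ {4, 5}` and `q` is odd.
-/

namespace Pool.Agent.Results.MP_c65de1_co.PossibleTypes

open Pool.Agent.H58.EQ

theorem result (p q : ℕ) (hp : 3 ≤ p) (hq : 3 ≤ q) (F : Type) [Fintype F] [Nonempty F]
    (S : EquivelarRegular p q F) : p = 3 ∨ ((p = 4 ∨ p = 5) ∧ Odd q) :=
  equivelar_types p q hp hq F S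

end Pool.Agent.Results.MP_c65de1_co.PossibleTypes
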